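import Mathlib

namespace Pool.Agent.H.MP_b4a25c_gt

open Set MeasureTheory
open scoped ENNReal

/-- First layer `V₁ = ℝ⁴` with basis `T, X₁, X₂, X₃` (coordinates `0, 1, 2, 3`), Euclidean norm. -/
abbrev V1 : Type := EuclideanSpace ℝ (Fin 4)

/-- Second layer `V₂ = ℝ³`. -/
abbrev V2 : Type := EuclideanSpace ℝ (Fin 3)

/-- The Lie bracket `V₁ × V₁ → V₂`: cross product of the last three coordinates. -/
noncomputable def br (x y : V1) : V2 :=
  !₂[x 2 * y 3 - x 3 * y 2, x 3 * y 1 - x 1 * y 3, x 1 * y 2 - x 2 * y 1]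

/-- The Carnot group `ℝ × F`, `F` free nilpotent of step 2 and rank 3, in exponential
coordinates: the vector space `V₁ × V₂`. -/
def N : Type := V1 × V2

noncomputable instance : NormedAddCommGroup N := inferInstanceAs (NormedAddCommGroup (V1 × V2))
noncomputable instance : NormedSpace ℝ N := inferInstanceAs (NormedSpace ℝ (V1 × V2))

/-- Baker-Campbell-Hausdorff group law `x y = x + y + [x, y] / 2`. -/
noncomputable instance : Group N where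
  mul p q := (p.1 + q.1, p.2 + q.2 + (1 / 2 : ℝ) • br p.1 q.1)
  one := (0, 0)
  inv p := (-p.1, -p.2)
  mul_assoc p q r := by
    refine Prod.ext (add_assoc p.1 q.1 r.1) ?_
    change p.2 + q.2 + (1 / 2 : ℝ) • br p.1 q.1 + r.2 + (1 / 2 : ℝ) • br (p.1 + q.1) r.1
      = p.2 + (q.2 + r.2 + (1 / 2 : ℝ) • br q.1 r.1) + (1 / 2 : ℝ) • br p.1 (q.1 + r.1)
    ext i
    fin_cases i <;> simp [br] <;> ring
  one_mul p := by
    refine Prod.ext (zero_add p.1) ?_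
    change 0 + p.2 + (1 / 2 : ℝ) • br 0 p.1 = p.2
    ext i
    fin_cases i <;> simp [br]
  mul_one p := by
    refine Prod.ext (add_zero p.1) ?_
    change p.2 + 0 + (1 / 2 : ℝ) • br p.1 0 = p.2
    ext i
    fin_cases i <;> simp [br]
  inv_mul_cancel p := by
    refine Prod.ext (neg_add_cancel p.1) ?_
    change -p.2 + p.2 + (1 / 2 : ℝ) • br (-p.1) p.1 = 0
    ext i
    fin_cases i <;> simp [br] <;> ring

/-- `γ` is an absolutely continuous curve on `[0,1]`, tangent a.e. to the left-invariant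
distribution of `V₁`, with control `u`: `γ'(s) = d(L_{γ s})_e (u s, 0)`. -/
def IsHorizontal (γ : ℝ → N) (u : ℝ → V1) : Prop :=
  AbsolutelyContinuousOnInterval γ 0 1 ∧
    ∀ᵐ s : ℝ, s ∈ Icc (0:ℝ) 1 →
      HasDerivAt γ (fderiv ℝ (fun q : N => γ s * q) 1 ((u s, 0) : V1 × V2)) s

/-- The Carnot-Caratheodory distance: infimum of the lengths of horizontal curves. -/
noncomputable def ccDist (p q : N) : ℝ≥0∞ :=
  ⨅ (γ : ℝ → N) (u : ℝ → V1) (_ : IsHorizontal γ u ∧ γ 0 = p ∧ γ 1 = q),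
    ∫⁻ s in Icc (0:ℝ) 1, ‖u s‖ₑ

/-- The Heisenberg group of dimension `2n+1` in exponential coordinates. -/
def Heis (n : ℕ) : Type := (Fin n → ℝ) × (Fin n → ℝ) × ℝ

noncomputable instance (n : ℕ) : Group (Heis n) where
  mul p q := (p.1 + q.1, p.2.1 + q.2.1,
    p.2.2 + q.2.2 + (1 / 2 : ℝ) * (p.1 ⬝ᵥ q.2.1 - p.2.1 ⬝ᵥ q.1))
  one := (0, 0, 0)
  inv p := (-p.1, -p.2.1, -p.2.2)
  mul_assoc p q r := by
    refine Prod.ext (add_assoc p.1 q.1 r.1) (Prod.ext (add_assoc p.2.1 q.2.1 r.2.1) ?_)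
    change p.2.2 + q.2.2 + (1 / 2 : ℝ) * (p.1 ⬝ᵥ q.2.1 - p.2.1 ⬝ᵥ q.1) + r.2.2
        + (1 / 2 : ℝ) * ((p.1 + q.1) ⬝ᵥ r.2.1 - (p.2.1 + q.2.1) ⬝ᵥ r.1)
      = p.2.2 + (q.2.2 + r.2.2 + (1 / 2 : ℝ) * (q.1 ⬝ᵥ r.2.1 - q.2.1 ⬝ᵥ r.1))
        + (1 / 2 : ℝ) * (p.1 ⬝ᵥ (q.2.1 + r.2.1) - p.2.1 ⬝ᵥ (q.1 + r.1))
    simp only [add_dotProduct, dotProduct_add]
    ring
  one_mul p := by
    refine Prod.ext (zero_add p.1) (Prod.ext (zero_add p.2.1) ?_)
    change 0 + p.2.2 + (1 / 2 : ℝ) * ((0 : Fin n → ℝ) ⬝ᵥ p.2.1 - (0 : Fin n → ℝ) ⬝ᵥ p.1) = p.2.2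
    simp
  mul_one p := by
    refine Prod.ext (add_zero p.1) (Prod.ext (add_zero p.2.1) ?_)
    change p.2.2 + 0 + (1 / 2 : ℝ) * (p.1 ⬝ᵥ (0 : Fin n → ℝ) - p.2.1 ⬝ᵥ (0 : Fin n → ℝ)) = p.2.2
    simp
  inv_mul_cancel p := by
    refine Prod.ext (neg_add_cancel p.1) (Prod.ext (neg_add_cancel p.2.1) ?_)
    change -p.2.2 + p.2.2 + (1 / 2 : ℝ) * ((-p.1) ⬝ᵥ p.2.1 - (-p.2.1) ⬝ᵥ p.1) = 0
    simp [dotProduct_comm]

lemma mul_fst (p q : N) : (p * q).1 = p.1 + q.1 := rfl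
lemma mul_snd (p q : N) : (p * q).2 = p.2 + q.2 + (1 / 2 : ℝ) • br p.1 q.1 := rfl
lemma inv_fst (p : N) : (p⁻¹).1 = -p.1 := rfl
lemma inv_snd (p : N) : (p⁻¹).2 = -p.2 := rfl
lemma one_fst : (1 : N).1 = 0 := rfl
lemma one_snd : (1 : N).2 = 0 := rfl

lemma comm_fst (p q : N) : (p * q * p⁻¹ * q⁻¹).1 = 0 := by
  simp only [mul_fst, inv_fst]; abel

lemma comm_snd (p q : N) : (p * q * p⁻¹ * q⁻¹).2 = br p.1 q.1 := by
  simp only [mul_fst, inv_fst, mul_snd, inv_snd]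
  ext i
  fin_cases i <;> simp [br] <;> ring

lemma exists_br (z : V2) : ∃ x y : V1, br x y = z := by
  by_cases h : z 0 ^ 2 + z 1 ^ 2 = 0
  · have h0 : z 0 = 0 := by nlinarith [sq_nonneg (z 0), sq_nonneg (z 1)]
    have h1 : z 1 = 0 := by nlinarith [sq_nonneg (z 0), sq_nonneg (z 1)]
    refine ⟨!₂[0, 1, 0, 0], !₂[0, 0, z 2, 0], ?_⟩
    ext i
    fin_cases i <;> simp [br, h0, h1]
  · refine ⟨!₂[0, -z 1 / (z 0 ^ 2 + z 1 ^ 2), z 0 / (z 0 ^ 2 + z 1 ^ 2), 0],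
      !₂[0, -z 2 * z 0, -z 2 * z 1, z 0 ^ 2 + z 1 ^ 2], ?_⟩
    ext i
    fin_cases i <;> simp [br] <;> field_simp <;> ring

open scoped commutatorElement in
lemma mem_lcs (p : N) : p ∈ (⊤ : Subgroup N).lowerCentralSeries 1 ↔ p.1 = 0 := by
  rw [Subgroup.top_lowerCentralSeries_one]
  constructor
  · intro hp
    let φ : N →* Multiplicative V1 :=
      { toFun := fun p => Multiplicative.ofAdd p.1, map_one' := rfl, map_mul' := fun _ _ => rfl }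
    exact Abelianization.commutator_subset_ker φ hp
  · intro hp
    obtain ⟨x, y, e⟩ := exists_br p.2
    let X : N := (x, 0)
    let Y : N := (y, 0)
    have : p = ⁅X, Y⁆ := by
      rw [commutatorElement_def]
      exact Prod.ext (hp.trans (comm_fst X Y).symm) (e.symm.trans (comm_snd X Y).symm)
    rw [this]
    exact Subgroup.commutator_mem_commutator (Subgroup.mem_top _) (Subgroup.mem_top _)

lemma noHeis (n : ℕ) (hn : 1 ≤ n) (G : Type) [Group G] : IsEmpty (N ≃* Heis n × G) := by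
  refine ⟨fun e => ?_⟩
  let i : Fin n := ⟨0, hn⟩
  let a : Heis n := (Pi.single i 1, 0, 0)
  let b : Heis n := (0, Pi.single i 1, 0)
  have hc : ∀ p q : Heis n, p * q * p⁻¹ * q⁻¹ =
      (show Heis n from (0, 0, p.1 ⬝ᵥ q.2.1 - p.2.1 ⬝ᵥ q.1)) := by
    intro p q
    refine Prod.ext ?_ (Prod.ext ?_ ?_)
    · change p.1 + q.1 + -p.1 + -q.1 = 0
      abel
    · change p.2.1 + q.2.1 + -p.2.1 + -q.2.1 = 0
      abel
    · change p.2.2 + q.2.2 + (1 / 2 : ℝ) * (p.1 ⬝ᵥ q.2.1 - p.2.1 ⬝ᵥ q.1) + -p.2.2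
        + (1 / 2 : ℝ) * ((p.1 + q.1) ⬝ᵥ (-p.2.1) - (p.2.1 + q.2.1) ⬝ᵥ (-p.1)) + -q.2.2
        + (1 / 2 : ℝ) * ((p.1 + q.1 + -p.1) ⬝ᵥ (-q.2.1) - (p.2.1 + q.2.1 + -p.2.1) ⬝ᵥ (-q.1))
        = p.1 ⬝ᵥ q.2.1 - p.2.1 ⬝ᵥ q.1
      simp only [add_dotProduct, dotProduct_neg, neg_dotProduct, dotProduct_comm p.2.1 p.1,
        dotProduct_comm q.2.1 q.1, dotProduct_comm q.2.1 p.1, dotProduct_comm q.1 p.2.1]
      ring
  let A : N := e.symm (a, 1)
  let B : N := e.symm (b, 1)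
  have key : ∀ g : N, ∃ g' : N, A * g * A⁻¹ * g⁻¹ = B * g' * B⁻¹ * g'⁻¹ := by
    intro g
    refine ⟨e.symm ((show Heis n from (Pi.single i (-((e g).1.2.1 i)), 0, 0)), 1), e.injective ?_⟩
    simp only [map_mul, map_inv, A, B, MulEquiv.apply_symm_apply]
    refine Prod.ext ?_ ?_
    · simp only [Prod.fst_mul, Prod.fst_inv, hc]
      simp [a, b]
    · simp
  have ne : br A.1 B.1 ≠ 0 := by
    intro h
    have h1 : A * B * A⁻¹ * B⁻¹ = 1 := Prod.ext (comm_fst _ _) ((comm_snd _ _).trans h)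
    have h2 := congrArg (fun p => (e p).1) h1
    simp only [map_mul, map_inv, A, B, MulEquiv.apply_symm_apply, Prod.fst_mul, Prod.fst_inv, hc,
      map_one, Prod.fst_one] at h2
    have h3 := congrArg (fun p : Heis n => p.2.2) h2
    have h4 : (1 : Heis n).2.2 = 0 := rfl
    simp [a, b, h4] at h3
  have orth : ∀ x : V1, B.1 1 * br A.1 x 0 + B.1 2 * br A.1 x 1 + B.1 3 * br A.1 x 2 = 0 := by
    intro x
    obtain ⟨g', e'⟩ := key (show N from (x, 0))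
    have := congrArg Prod.snd e'
    rw [comm_snd, comm_snd] at this
    change br A.1 x = _ at this
    rw [this]
    simp [br]; ring
  apply ne
  have o1 := orth !₂[0, 1, 0, 0]
  have o2 := orth !₂[0, 0, 1, 0]
  have o3 := orth !₂[0, 0, 0, 1]
  simp [br] at o1 o2 o3
  ext j
  fin_cases j <;> simp [br] <;> linarith

end Pool.Agent.H.MP_b4a25c_gt
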