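import Pool.Agent.H.MP_b4a25c_gt.A

namespace Pool.Agent.H.MP_b4a25c_gt

open Set MeasureTheory Filter Topology
open scoped ENNReal

noncomputable def brL (x : V1) : V1 →L[ℝ] V2 :=
  LinearMap.toContinuousLinearMap
    { toFun := br x
      map_add' := fun y z => by ext i; fin_cases i <;> simp [br] <;> ring
      map_smul' := fun c y => by ext i; fin_cases i <;> simp [br] <;> ring }

lemma fderiv_mul (p : N) (u : V1) :
    fderiv ℝ (fun q : N => p * q) 1 ((u, 0) : V1 × V2) = ((u, (1 / 2 : ℝ) • br p.1 u) : V1 × V2) := by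
  let L : (V1 × V2) →L[ℝ] (V1 × V2) := (ContinuousLinearMap.fst ℝ V1 V2).prod
    (ContinuousLinearMap.snd ℝ V1 V2 + (1 / 2 : ℝ) • (brL p.1).comp (ContinuousLinearMap.fst ℝ V1 V2))
  have h1 : HasFDerivAt (fun q : V1 × V2 => (show V1 × V2 from p) + L q) L (0, 0) :=
    L.hasFDerivAt.const_add _
  have h2 : (fun q : N => p * q) = fun q : V1 × V2 => (show V1 × V2 from p) + L q := by
    funext q
    refine Prod.ext rfl ?_
    change p.2 + q.2 + (1 / 2 : ℝ) • br p.1 q.1 = p.2 + (q.2 + (1 / 2 : ℝ) • br p.1 q.1)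
    rw [add_assoc]
  have h3 : fderiv ℝ (fun q : N => p * q) 1 = L := by
    rw [h2]; exact h1.fderiv
  rw [h3]
  change ((u, 0 + (1 / 2 : ℝ) • br p.1 u) : V1 × V2) = _
  rw [zero_add]

lemma isHor_iff (γ : ℝ → V1 × V2) (u : ℝ → V1) : IsHorizontal γ u ↔
    AbsolutelyContinuousOnInterval γ 0 1 ∧ ∀ᵐ s : ℝ, s ∈ Icc (0:ℝ) 1 →
      HasDerivAt γ ((u s, (1 / 2 : ℝ) • br (γ s).1 (u s)) : V1 × V2) s := by
  unfold IsHorizontal
  simp only [fderiv_mul]
  rfl

lemma ac_comp {E F : Type} [NormedAddCommGroup E] [NormedSpace ℝ E] [NormedAddCommGroup F]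
    [NormedSpace ℝ F] {f : E → F} (hf : ContDiff ℝ 1 f) {γ : ℝ → E}
    (h : AbsolutelyContinuousOnInterval γ 0 1) :
    AbsolutelyContinuousOnInterval (fun s => f (γ s)) 0 1 := by
  have hc : IsCompact (γ '' uIcc 0 1) := isCompact_uIcc.image_of_continuousOn h.continuousOn
  obtain ⟨K, hK⟩ := (hf.locallyLipschitz.locallyLipschitzOn (s := γ '' uIcc 0 1)
    ).exists_lipschitzOnWith_of_compact hc
  rw [absolutelyContinuousOnInterval_iff] at h ⊢
  intro ε hε
  obtain ⟨δ, hδ, H⟩ := h (ε / (K + 1)) (by positivity)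
  refine ⟨δ, hδ, fun E hE hl => ?_⟩
  have h1 := H E hE hl
  calc _ ≤ ∑ i ∈ Finset.range E.1, K * dist (γ (E.2 i).1) (γ (E.2 i).2) :=
        Finset.sum_le_sum fun i hi => hK.dist_le_mul _ (mem_image_of_mem _ (hE.1 i hi).1) _
          (mem_image_of_mem _ (hE.1 i hi).2)
    _ = K * ∑ i ∈ Finset.range E.1, dist (γ (E.2 i).1) (γ (E.2 i).2) := by rw [Finset.mul_sum]
    _ ≤ K * (ε / (K + 1)) := by gcongr
    _ < (K + 1) * (ε / (K + 1)) := by gcongr; linarith
    _ = ε := by field_simp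

noncomputable def hh (p : V1 × V2) : ℝ := Real.log (1 + p.1 1 ^ 2 + p.1 2 ^ 2 + p.2 2 ^ 2)

noncomputable def e0 : V1 := EuclideanSpace.single 0 1

noncomputable def shear (c : ℝ) (p : V1 × V2) : V1 × V2 := (p.1 + (c * hh p) • e0, p.2)

lemma shear_shear (c : ℝ) (p : V1 × V2) : shear c (shear (-c) p) = p := by
  have : hh (shear (-c) p) = hh p := by simp [hh, shear, e0]
  refine Prod.ext ?_ rfl
  change (p.1 + (-c * hh p) • e0) + (c * hh (shear (-c) p)) • e0 = p.1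
  rw [this, add_assoc, ← add_smul]
  simp

lemma contDiff_shear (c : ℝ) : ContDiff ℝ 1 (shear c) := by
  have h : ContDiff ℝ 1 hh := by
    unfold hh
    refine ContDiff.log (by fun_prop) fun p => ?_
    positivity
  unfold shear
  fun_prop

noncomputable def dh (p : V1 × V2) (u : V1) : ℝ :=
  (2 * p.1 1 * u 1 + 2 * p.1 2 * u 2 + p.2 2 * (p.1 1 * u 2 - p.1 2 * u 1)) /
    (1 + p.1 1 ^ 2 + p.1 2 ^ 2 + p.2 2 ^ 2)

lemma dh_le (p : V1 × V2) (u : V1) : |dh p u| ≤ 3 * ‖u‖ := by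
  have h1 : |u 1| ≤ ‖u‖ := by simpa using PiLp.norm_apply_le u 1
  have h2 : |u 2| ≤ ‖u‖ := by simpa using PiLp.norm_apply_le u 2
  unfold dh
  generalize p.1 1 = a
  generalize p.1 2 = b
  generalize p.2 2 = z
  have hD : 0 < 1 + a ^ 2 + b ^ 2 + z ^ 2 := by positivity
  rw [abs_div, abs_of_pos hD, div_le_iff₀ hD]
  have e : 2 * a * u 1 + 2 * b * u 2 + z * (a * u 2 - b * u 1)
      = (2 * a - z * b) * u 1 + (2 * b + z * a) * u 2 := by ring
  have k1 : |2 * a - z * b| ≤ 1 + a ^ 2 + b ^ 2 + z ^ 2 := by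
    rw [abs_le]; constructor <;> nlinarith [sq_nonneg (a - 1), sq_nonneg (a + 1),
      sq_nonneg (z - b), sq_nonneg (z + b)]
  have k2 : |2 * b + z * a| ≤ 1 + a ^ 2 + b ^ 2 + z ^ 2 := by
    rw [abs_le]; constructor <;> nlinarith [sq_nonneg (b - 1), sq_nonneg (b + 1),
      sq_nonneg (z - a), sq_nonneg (z + a)]
  have hn := norm_nonneg u
  rw [e]
  refine (abs_add_le _ _).trans ?_
  rw [abs_mul, abs_mul]
  have m1 := mul_le_mul k1 h1 (abs_nonneg _) hD.le
  have m2 := mul_le_mul k2 h2 (abs_nonneg _) hD.le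
  nlinarith

lemma coord {n : ℕ} {x : ℝ → EuclideanSpace ℝ (Fin n)} {v : EuclideanSpace ℝ (Fin n)} {s : ℝ}
    (h : HasDerivAt x v s) (i : Fin n) : HasDerivAt (fun s => x s i) (v i) s :=
  (EuclideanSpace.proj (𝕜 := ℝ) i).hasFDerivAt.comp_hasDerivAt s h

lemma hor_shear (c : ℝ) {γ : ℝ → V1 × V2} {u : ℝ → V1} (h : IsHorizontal γ u) :
    IsHorizontal (fun s => shear c (γ s)) (fun s => u s + (c * dh (γ s) (u s)) • e0) := by
  rw [isHor_iff] at h ⊢
  refine ⟨ac_comp (contDiff_shear c) h.1, ?_⟩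
  filter_upwards [h.2] with s hs hI
  have d := hs hI
  have d1 : HasDerivAt (fun s => (γ s).1) (u s) s :=
    (ContinuousLinearMap.fst ℝ V1 V2).hasFDerivAt.comp_hasDerivAt s d
  have d2 : HasDerivAt (fun s => (γ s).2) ((1 / 2 : ℝ) • br (γ s).1 (u s)) s :=
    (ContinuousLinearMap.snd ℝ V1 V2).hasFDerivAt.comp_hasDerivAt s d
  have d3 : HasDerivAt (fun s => hh (γ s)) (dh (γ s) (u s)) s := by
    have a := (((((coord d1 1).pow 2).const_add 1).add ((coord d1 2).pow 2)).add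
      ((coord d2 2).pow 2)).log (by
        change 1 + (γ s).1 1 ^ 2 + (γ s).1 2 ^ 2 + (γ s).2 2 ^ 2 ≠ 0
        positivity)
    refine HasDerivAt.congr_deriv a ?_
    unfold dh
    simp [br]
    ring
  have d4 := (d1.add ((d3.const_mul c).smul_const e0)).prodMk d2
  refine HasDerivAt.congr_deriv d4 ?_
  refine Prod.ext rfl ?_
  change (1 / 2 : ℝ) • br (γ s).1 (u s) = (1 / 2 : ℝ) • br ((γ s).1 + (c * hh (γ s)) • e0)
    (u s + (c * dh (γ s) (u s)) • e0)
  congr 1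
  ext i
  fin_cases i <;> simp [br, e0]

lemma cc_shear {c : ℝ} (hc : |c| ≤ 1) (p q : N) :
    ccDist (shear c p) (shear c q) ≤ 4 * ccDist p q := by
  conv_rhs => unfold ccDist
  simp only [ENNReal.mul_iInf_of_ne (show (4 : ℝ≥0∞) ≠ 0 by norm_num) (show (4 : ℝ≥0∞) ≠ ⊤ by norm_num)]
  refine le_iInf fun γ => le_iInf fun u => le_iInf fun ⟨h, h0, h1⟩ => ?_
  refine iInf_le_of_le (fun s => shear c (γ s)) (iInf_le_of_le _
    (iInf_le_of_le ⟨hor_shear c h, by rw [← h0], by rw [← h1]⟩ ?_))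
  rw [← lintegral_const_mul' _ _ (by norm_num)]
  refine lintegral_mono fun s => ?_
  have n0 : ‖e0‖ = 1 := by simp [e0]
  have k := dh_le (γ s) (u s)
  have : ‖u s + (c * dh (γ s) (u s)) • e0‖ ≤ 4 * ‖u s‖ := by
    refine (norm_add_le _ _).trans ?_
    rw [norm_smul, n0, Real.norm_eq_abs, abs_mul]
    have := mul_le_mul hc k (abs_nonneg _) zero_le_one
    linarith
  rw [← ofReal_norm_eq_enorm, ← ofReal_norm_eq_enorm]
  refine (ENNReal.ofReal_le_ofReal this).trans (le_of_eq ?_)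
  rw [ENNReal.ofReal_mul (by norm_num)]
  simp

lemma cc_lower (p q : N) : ENNReal.ofReal |q.1 0 - p.1 0| ≤ ccDist p q := by
  refine le_iInf fun γ => le_iInf fun u => le_iInf fun ⟨h, h0, h1⟩ => ?_
  rw [isHor_iff] at h
  have ac : AbsolutelyContinuousOnInterval (fun s => (γ s).1 0) 0 1 :=
    ac_comp (f := fun p : V1 × V2 => p.1 0) (by fun_prop) h.1
  have e := ac.integral_deriv_eq_sub
  simp only [h0, h1] at e
  rw [← e, intervalIntegral.integral_of_le zero_le_one, ← Real.norm_eq_abs, ofReal_norm_eq_enorm,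
    ← integral_Icc_eq_integral_Ioc]
  refine (enorm_integral_le_lintegral_enorm _).trans (lintegral_mono_ae ?_)
  rw [ae_restrict_iff' measurableSet_Icc]
  filter_upwards [h.2] with s hs hI
  have d1 : HasDerivAt (fun s => (γ s).1) (u s) s :=
    (ContinuousLinearMap.fst ℝ V1 V2).hasFDerivAt.comp_hasDerivAt s (hs hI)
  rw [(coord d1 0).deriv, ← ofReal_norm_eq_enorm, ← ofReal_norm_eq_enorm]
  exact ENNReal.ofReal_le_ofReal (PiLp.norm_apply_le (u s) 0)

lemma cc_finite (p q : N) : ccDist p q < ⊤ := by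
  obtain ⟨P', Q', e⟩ := exists_br ((60 : ℝ) • (p⁻¹ * q).2)
  let x : V1 := q.1 - p.1
  let P : V1 := P' + (6 : ℝ) • x
  let Q : V1 := Q' - (15 : ℝ) • x
  let R : V1 := x - P - Q
  let γ : ℝ → V1 × V2 := fun s => (p.1 + (s • P + s ^ 2 • Q + s ^ 3 • R),
    p.2 + (1 / 2 : ℝ) • ((s ^ 3 / 3) • br P Q + (s ^ 4 / 2) • br P R + (s ^ 5 / 5) • br Q R)
      + (1 / 2 : ℝ) • (s • br p.1 P + s ^ 2 • br p.1 Q + s ^ 3 • br p.1 R))
  let u : ℝ → V1 := fun s => P + (2 * s) • Q + (3 * s ^ 2) • R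
  have hγ : IsHorizontal γ u := by
    rw [isHor_iff]
    refine ⟨ContDiffOn.absolutelyContinuousOnInterval (by fun_prop), Eventually.of_forall fun s _ => ?_⟩
    have i1 := hasDerivAt_id s
    have i2 := hasDerivAt_pow 2 s
    have i3 := hasDerivAt_pow 3 s
    have i4 := hasDerivAt_pow 4 s
    have i5 := hasDerivAt_pow 5 s
    have d1 := (((i1.smul_const P).add (i2.smul_const Q)).add (i3.smul_const R)).const_add p.1
    have d2 := ((((((i3.div_const 3).smul_const (br P Q)).add ((i4.div_const 2).smul_const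
      (br P R))).add ((i5.div_const 5).smul_const (br Q R))).const_smul (1 / 2 : ℝ)).const_add
      p.2).add ((((i1.smul_const (br p.1 P)).add (i2.smul_const (br p.1 Q))).add
      (i3.smul_const (br p.1 R))).const_smul (1 / 2 : ℝ))
    refine HasDerivAt.congr_deriv (d1.prodMk d2) (Prod.ext ?_ ?_)
    · simp [u]
    · ext i
      fin_cases i <;> simp [br, γ, u] <;> ring
  have h0 : γ 0 = p := by
    refine Prod.ext ?_ ?_ <;> simp [γ]
  have h1 : γ 1 = q := by
    refine Prod.ext ?_ ?_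
    · simp [γ, R, x]
    · rw [mul_snd, inv_snd, inv_fst] at e
      have e0 := congrArg (fun v : V2 => v 0) e
      have e1 := congrArg (fun v : V2 => v 1) e
      have e2 := congrArg (fun v : V2 => v 2) e
      simp [br] at e0 e1 e2
      ext i
      fin_cases i <;> simp [br, γ, R, P, Q, x] <;> linarith
  refine lt_of_le_of_lt (iInf_le_of_le γ (iInf_le_of_le u (iInf_le _ ⟨hγ, h0, h1⟩))) ?_
  have : IntegrableOn u (Icc (0:ℝ) 1) := (by fun_prop : Continuous u).integrableOn_Icc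
  exact this.2

end Pool.Agent.H.MP_b4a25c_gt
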